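import Pool.Agent.Q255.FG.Stm

/-!
# Project FG of helper255, jobs TUP, HMC: factorisations into primes and the high moments of
character sums over primes
-/

set_option autoImplicit false

open MeasureTheory Finset

namespace Pool.Agent.Q299.FG

open Q289.PAM Pool.Agent.Q255.RM Pool.Agent.Q255.FG

/-- TUP -/
theorem tup : S_TUP := by
  intro P m t hP ht
  have h1 : ((Fintype.piFinset fun _ : Fin m => P).filter fun t' => ∏ i, t' i = ∏ i, t i).card ≤
      (List.ofFn t).permutations.toFinset.card := by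
    refine Finset.card_le_card_of_injOn (fun t' => List.ofFn t') (fun t' h => ?_)
      (fun a _ b _ hab => List.ofFn_injective hab)
    rw [Finset.mem_coe, Finset.mem_filter, Fintype.mem_piFinset] at h
    rw [Finset.mem_coe, List.mem_toFinset, List.mem_permutations]
    have e1 := Nat.primeFactorsList_unique (n := ∏ i, t i) (l := List.ofFn t')
      (by rw [List.prod_ofFn]; exact h.2) (fun p hp => by
        rw [List.mem_ofFn] at hp
        obtain ⟨i, rfl⟩ := hp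
        exact hP _ (h.1 i))
    have e2 := Nat.primeFactorsList_unique (n := ∏ i, t i) (l := List.ofFn t)
      (by rw [List.prod_ofFn]) (fun p hp => by
        rw [List.mem_ofFn] at hp
        obtain ⟨i, rfl⟩ := hp
        exact ht i)
    exact e1.trans e2.symm
  refine h1.trans ((List.toFinset_card_le _).trans ?_)
  rw [List.length_permutations, List.length_ofFn]

/-- the coefficients of the power of a sum over primes -/
noncomputable def al (P : Finset ℕ) (m : ℕ) (D : ℕ → ℂ) (n : ℕ) : ℂ :=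
  ∑ t ∈ (Fintype.piFinset fun _ : Fin m => P).filter (fun t => ∏ i, t i = n), ∏ i, D (t i)

lemma prod_mem {P : Finset ℕ} {Y m : ℕ} (hP : ∀ p ∈ P, p.Prime ∧ p ≤ Y) :
    ∀ t ∈ (Fintype.piFinset fun _ : Fin m => P), ∏ i, t i ∈ Icc 1 (Y ^ m) := by
  intro t ht
  rw [Fintype.mem_piFinset] at ht
  rw [Finset.mem_Icc]
  refine ⟨Finset.prod_pos fun i _ => (hP _ (ht i)).1.pos, ?_⟩
  have := Finset.prod_le_pow_card (univ : Finset (Fin m)) t Y (fun i _ => (hP _ (ht i)).2)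
  simpa using this

lemma pow_al (P : Finset ℕ) (Y m : ℕ) (D : ℕ → ℂ) (hP : ∀ p ∈ P, p.Prime ∧ p ≤ Y) (ψ : ℕ → ℂ)
    (h1 : ψ 1 = 1) (hψ : ∀ a b, ψ (a * b) = ψ a * ψ b) :
    (∑ p ∈ P, D p * ψ p) ^ m = ∑ n ∈ Icc 1 (Y ^ m), al P m D n * ψ n := by
  have hpr : ∀ t : Fin m → ℕ, ψ (∏ i, t i) = ∏ i, ψ (t i) := fun t =>
    map_prod (⟨⟨ψ, h1⟩, hψ⟩ : ℕ →* ℂ) t univ
  have e1 : (∑ p ∈ P, D p * ψ p) ^ m =
      ∑ t ∈ (Fintype.piFinset fun _ : Fin m => P), ∏ i, (D (t i) * ψ (t i)) := by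
    rw [← Finset.prod_univ_sum (fun _ : Fin m => P) (fun _ p => D p * ψ p), Finset.prod_const,
      Finset.card_univ, Fintype.card_fin]
  rw [e1, ← Finset.sum_fiberwise_of_maps_to (prod_mem hP)]
  refine Finset.sum_congr rfl fun n _ => ?_
  rw [al, Finset.sum_mul]
  refine Finset.sum_congr rfl fun t ht => ?_
  rw [Finset.mem_filter] at ht
  rw [Finset.prod_mul_distrib, ← hpr, ht.2]

lemma sum_al (P : Finset ℕ) (Y m : ℕ) (D : ℕ → ℂ) (hP : ∀ p ∈ P, p.Prime ∧ p ≤ Y) (h : S_TUP) :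
    ∑ n ∈ Icc 1 (Y ^ m), ‖al P m D n‖ ^ 2 ≤ (Nat.factorial m) * (∑ p ∈ P, ‖D p‖ ^ 2) ^ m := by
  have h1 : ∀ n ∈ Icc 1 (Y ^ m), ‖al P m D n‖ ^ 2 ≤ (Nat.factorial m) *
      ∑ t ∈ (Fintype.piFinset fun _ : Fin m => P).filter (fun t => ∏ i, t i = n),
        ∏ i, ‖D (t i)‖ ^ 2 := by
    intro n _
    have h2 : ((((Fintype.piFinset fun _ : Fin m => P).filter (fun t => ∏ i, t i = n)).card : ℕ) : ℝ) ≤
        Nat.factorial m := by
      rcases ((Fintype.piFinset fun _ : Fin m => P).filter (fun t => ∏ i, t i = n)).eq_empty_or_nonempty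
        with he | ⟨t, ht⟩
      · rw [he]
        simp
      · rw [Finset.mem_filter, Fintype.mem_piFinset] at ht
        have h3 := h P m t (fun p hp => (hP p hp).1) (fun i => (hP _ (ht.1 i)).1)
        rw [ht.2] at h3
        exact_mod_cast h3
    have h3 : ‖al P m D n‖ ≤ ∑ t ∈ (Fintype.piFinset fun _ : Fin m => P).filter
        (fun t => ∏ i, t i = n), ∏ i, ‖D (t i)‖ := by
      rw [al]
      refine norm_sum_le_of_le _ fun t _ => ?_
      rw [norm_prod]
    calc ‖al P m D n‖ ^ 2 ≤ (∑ t ∈ (Fintype.piFinset fun _ : Fin m => P).filter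
          (fun t => ∏ i, t i = n), ∏ i, ‖D (t i)‖) ^ 2 := pow_le_pow_left₀ (norm_nonneg _) h3 2
      _ ≤ _ := sq_sum_le_card_mul_sum_sq
      _ = (((Fintype.piFinset fun _ : Fin m => P).filter (fun t => ∏ i, t i = n)).card : ℝ) *
          ∑ t ∈ (Fintype.piFinset fun _ : Fin m => P).filter (fun t => ∏ i, t i = n),
            ∏ i, ‖D (t i)‖ ^ 2 := by
          congr 1
          refine Finset.sum_congr rfl fun t _ => ?_
          rw [Finset.prod_pow]
      _ ≤ _ := mul_le_mul_of_nonneg_right h2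
          (Finset.sum_nonneg fun t _ => Finset.prod_nonneg fun i _ => by positivity)
  refine (Finset.sum_le_sum h1).trans (le_of_eq ?_)
  rw [← Finset.mul_sum, Finset.sum_fiberwise_of_maps_to (prod_mem hP)]
  congr 1
  rw [← Finset.prod_univ_sum (fun _ : Fin m => P) (fun _ p => ‖D p‖ ^ 2), Finset.prod_const,
      Finset.card_univ, Fintype.card_fin]

lemma pow_sum_le {P : Finset ℕ} {c b : ℕ → ℂ} (hb : ∀ n, ‖b n‖ ≤ 1) (m : ℕ) :
    (∑ p ∈ P, ‖c p * b p‖ ^ 2) ^ m ≤ (∑ p ∈ P, ‖c p‖ ^ 2) ^ m := by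
  refine pow_le_pow_left₀ (Finset.sum_nonneg fun p _ => by positivity) ?_ m
  refine Finset.sum_le_sum fun p _ => ?_
  refine pow_le_pow_left₀ (norm_nonneg _) ?_ 2
  rw [norm_mul]
  exact mul_le_of_le_one_right (norm_nonneg _) (hb p)

/-- mean square of a short character sum modulo a prime -/
lemma mean_sq (q : ℕ) [NeZero q] (hq : q.Prime) (M : ℕ) (hM : M ≤ q - 1) (α : ℕ → ℂ) :
    ∑ χ : DirichletCharacter ℂ q, ‖∑ n ∈ Icc 1 M, α n * χ (n : ZMod q)‖ ^ 2 =
      (q - 1 : ℝ) * ∑ n ∈ Icc 1 M, ‖α n‖ ^ 2 := by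
  haveI : Fact q.Prime := ⟨hq⟩
  have hq1 := hq.one_le
  have hu : ∀ n ∈ Icc 1 M, IsUnit (n : ZMod q) := by
    intro n hn
    rw [Finset.mem_Icc] at hn
    rw [ZMod.isUnit_iff_coprime]
    refine ((Nat.Prime.coprime_iff_not_dvd hq).2 fun hd => ?_).symm
    have := Nat.le_of_dvd (by omega) hd
    omega
  have hinj : ∀ n ∈ Icc 1 M, ∀ k ∈ Icc 1 M, ((n : ZMod q) = k ↔ n = k) := by
    intro n hn k hk
    rw [Finset.mem_Icc] at hn hk
    rw [ZMod.natCast_eq_natCast_iff', Nat.mod_eq_of_lt (by omega), Nat.mod_eq_of_lt (by omega)]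
  have key : ((∑ χ : DirichletCharacter ℂ q, ‖∑ n ∈ Icc 1 M, α n * χ (n : ZMod q)‖ ^ 2 : ℝ) : ℂ) =
      (((q - 1 : ℝ) * ∑ n ∈ Icc 1 M, ‖α n‖ ^ 2 : ℝ) : ℂ) := by
    have e1 : ∀ χ : DirichletCharacter ℂ q, ((‖∑ n ∈ Icc 1 M, α n * χ (n : ZMod q)‖ ^ 2 : ℝ) : ℂ) =
        ∑ n ∈ Icc 1 M, ∑ k ∈ Icc 1 M, (α n * star (α k)) *
          (χ ((k : ZMod q)⁻¹) * χ (n : ZMod q)) := by
      intro χ
      rw [← Complex.normSq_eq_norm_sq, ← Complex.mul_conj, map_sum, Finset.sum_mul_sum]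
      refine Finset.sum_congr rfl fun n _ => Finset.sum_congr rfl fun k _ => ?_
      rw [map_mul]
      have e2 : (starRingEnd ℂ) (χ (k : ZMod q)) = χ ((k : ZMod q)⁻¹) := by
        have := MulChar.star_apply χ (k : ZMod q)
        rw [MulChar.star_eq_inv, MulChar.inv_apply'] at this
        exact this.symm
      rw [e2]
      simp only [Complex.star_def]
      ring
    push_cast
    have e3 : ∀ χ : DirichletCharacter ℂ q,
        ((‖∑ n ∈ Icc 1 M, α n * χ (n : ZMod q)‖ : ℝ) : ℂ) ^ 2 =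
        ∑ n ∈ Icc 1 M, ∑ k ∈ Icc 1 M, (α n * star (α k)) *
          (χ ((k : ZMod q)⁻¹) * χ (n : ZMod q)) := by
      intro χ
      rw [← e1]
      push_cast
      rfl
    rw [Finset.sum_congr rfl fun χ _ => e3 χ, Finset.sum_comm, Finset.mul_sum]
    refine Finset.sum_congr rfl fun n hn => ?_
    rw [Finset.sum_comm]
    have e4 : ∀ k ∈ Icc 1 M, ∑ χ : DirichletCharacter ℂ q, (α n * star (α k)) *
          (χ ((k : ZMod q)⁻¹) * χ (n : ZMod q)) =
        if k = n then ((q : ℂ) - 1) * (α n * star (α k)) else 0 := by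
      intro k hk
      rw [← Finset.mul_sum, DirichletCharacter.sum_char_inv_mul_char_eq ℂ (hu k hk)]
      simp only [hinj k hk n hn]
      split_ifs
      · rw [Nat.totient_prime hq, Nat.cast_sub hq1]
        push_cast
        ring
      · simp
    rw [Finset.sum_congr rfl e4, Finset.sum_ite_eq' (Icc 1 M) n, if_pos hn]
    congr 1
    rw [Complex.star_def, Complex.mul_conj, Complex.normSq_eq_norm_sq]
    push_cast
    rfl
  exact_mod_cast key

lemma char_inj (q : ℕ) [NeZero q] :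
    Function.Injective (fun (χ : DirichletCharacter ℂ q) (n : ℕ) => χ (n : ZMod q)) := by
  intro χ χ' h
  refine MulChar.ext' fun a => ?_
  have := congrFun h a.val
  simpa using this

/-- HMC -/
theorem hmc (h : S_TUP) : S_HMC := by
  intro q b hq hb P Y m c hP hY
  classical
  haveI : NeZero q := ⟨hq.ne_zero⟩
  have hq1 : (0 : ℝ) ≤ (q : ℝ) - 1 := by
    have : (1 : ℝ) ≤ q := by exact_mod_cast hq.one_le
    linarith
  have e0 : ∑ ψ ∈ chars q, ‖∑ p ∈ P, c p * b p * ψ p‖ ^ (2 * m) =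
      ∑ χ : DirichletCharacter ℂ q, ‖∑ p ∈ P, c p * b p * χ (p : ZMod q)‖ ^ (2 * m) := by
    rw [chars, dif_neg hq.ne_zero]
    rw [Finset.sum_image fun χ _ χ' _ hh => char_inj q hh]
  have e1 : ∀ χ : DirichletCharacter ℂ q, ‖∑ p ∈ P, c p * b p * χ (p : ZMod q)‖ ^ (2 * m) =
      ‖∑ n ∈ Icc 1 (Y ^ m), al P m (fun p => c p * b p) n * χ (n : ZMod q)‖ ^ 2 := by
    intro χ
    rw [mul_comm 2 m, pow_mul, ← norm_pow, pow_al P Y m (fun p => c p * b p) hP
      (fun n => χ (n : ZMod q)) (by simp) (fun a b => by simp)]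
  rw [e0, Finset.sum_congr rfl fun χ _ => e1 χ, mean_sq q hq _ hY]
  refine (mul_le_mul_of_nonneg_left (sum_al P Y m _ hP h) hq1).trans ?_
  rw [mul_assoc]
  refine mul_le_mul_of_nonneg_left ?_ hq1
  exact mul_le_mul_of_nonneg_left (pow_sum_le hb m) (by positivity)

end Pool.Agent.Q299.FG
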