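import Pool.Agent.Q255.FG.Stm

/-!
# Project FG of helper255, job ABEL: summation by parts
-/

set_option autoImplicit false

open MeasureTheory Finset

namespace Pool.Agent.Q299.FG

open Q289.PAM Pool.Agent.Q255.RM Pool.Agent.Q255.FG

lemma parts (x : ℕ → ℂ) (w : ℕ → ℝ) (N : ℕ) :
    ∑ n ∈ Icc 1 (N + 1), (w n : ℂ) * x n = (w (N + 1) : ℂ) * (∑ n ∈ Icc 1 (N + 1), x n) +
      ∑ n ∈ Icc 1 N, ((w n - w (n + 1) : ℝ) : ℂ) * ∑ j ∈ Icc 1 n, x j := by
  induction N with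
  | zero => simp
  | succ N ih =>
    have e1 := Finset.sum_Icc_succ_top (a := 1) (b := N + 1) (by omega) (fun n => (w n : ℂ) * x n)
    have e2 := Finset.sum_Icc_succ_top (a := 1) (b := N) (by omega)
      (fun n => ((w n - w (n + 1) : ℝ) : ℂ) * ∑ j ∈ Icc 1 n, x j)
    have e3 := Finset.sum_Icc_succ_top (a := 1) (b := N + 1) (by omega) x
    rw [e1, e2, e3, ih]
    push_cast
    ring

lemma tele (w : ℕ → ℝ) (N : ℕ) :
    w (N + 1) + ∑ n ∈ Icc 1 N, (w n - w (n + 1)) = w 1 := by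
  induction N with
  | zero => simp
  | succ N ih =>
    rw [Finset.sum_Icc_succ_top (by omega)]
    linarith

lemma abel_gen (x : ℕ → ℂ) (w : ℕ → ℝ) (N : ℕ) (B : ℝ) (h0 : ∀ n, 1 ≤ n → 0 ≤ w n)
    (h1 : w 1 ≤ 1) (hw : ∀ n, 1 ≤ n → w (n + 1) ≤ w n) (hB : ∀ n ≤ N, ‖∑ j ∈ Icc 1 n, x j‖ ≤ B) :
    ‖∑ n ∈ Icc 1 N, (w n : ℂ) * x n‖ ≤ B := by
  have hB0 : 0 ≤ B := (norm_nonneg _).trans (hB 0 (by omega))
  rcases N with _ | N
  · simpa using hB0
  · rw [parts]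
    refine (norm_add_le _ _).trans ?_
    have h2 : ‖(w (N + 1) : ℂ) * (∑ n ∈ Icc 1 (N + 1), x n)‖ ≤ w (N + 1) * B := by
      rw [norm_mul, Complex.norm_real, Real.norm_of_nonneg (h0 _ (by omega))]
      exact mul_le_mul_of_nonneg_left (hB _ le_rfl) (h0 _ (by omega))
    have h3 : ‖∑ n ∈ Icc 1 N, ((w n - w (n + 1) : ℝ) : ℂ) * ∑ j ∈ Icc 1 n, x j‖ ≤
        ∑ n ∈ Icc 1 N, (w n - w (n + 1)) * B := by
      refine norm_sum_le_of_le _ fun n hn => ?_
      rw [Finset.mem_Icc] at hn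
      rw [norm_mul, Complex.norm_real, Real.norm_of_nonneg (sub_nonneg.2 (hw n hn.1))]
      exact mul_le_mul_of_nonneg_left (hB _ (by omega)) (sub_nonneg.2 (hw n hn.1))
    have h4 := tele w N
    rw [← Finset.sum_mul] at h3
    calc _ ≤ w (N + 1) * B + (∑ n ∈ Icc 1 N, (w n - w (n + 1))) * B := add_le_add h2 h3
      _ = w 1 * B := by rw [← add_mul, h4]
      _ ≤ 1 * B := mul_le_mul_of_nonneg_right h1 hB0
      _ = B := one_mul B

/-- ABEL -/
theorem abel : S_ABEL := by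
  intro ω a N δ B hδ hB
  have h := abel_gen (fun n => f ω n * a n / ((Real.sqrt n : ℝ) : ℂ)) (fun n => (n : ℝ) ^ (-δ)) N B
    (fun n _ => by positivity) (by simp) (fun n hn => by
      have hn' : (1 : ℝ) ≤ n := by exact_mod_cast hn
      rw [Real.rpow_neg (by positivity), Real.rpow_neg (by positivity)]
      refine inv_anti₀ (Real.rpow_pos_of_pos (by linarith) _) ?_
      exact Real.rpow_le_rpow (by linarith) (by push_cast; linarith) hδ) hB
  refine le_of_eq_of_le ?_ h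
  congr 1
  refine Finset.sum_congr rfl fun n hn => ?_
  rw [Finset.mem_Icc] at hn
  have hn' : (0 : ℝ) < n := by exact_mod_cast hn.1
  have e : (n : ℝ) ^ (-(1 / 2 + δ)) = (n : ℝ) ^ (-δ) / Real.sqrt n := by
    rw [Real.sqrt_eq_rpow, ← Real.rpow_sub hn']
    congr 1
    ring
  rw [e]
  push_cast
  ring

end Pool.Agent.Q299.FG
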