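import Pool.Agent.Q299.FG.Tup

/-!
# Project FG of helper255, job DOM: domination of moments
-/

set_option autoImplicit false

open MeasureTheory Finset

namespace Pool.Agent.Q299.FG

open Q289.PAM Pool.Agent.Q255.RM Pool.Agent.Q255.FG

lemma int_cont {E : Type*} [NormedAddCommGroup E] [SecondCountableTopology E] {g : Om → E}
    (hg : Continuous g) : Integrable g PT :=
  hg.integrable_of_hasCompactSupport (HasCompactSupport.of_compactSpace g)

lemma f_prod (ω : Om) {ι : Type*} (s : Finset ι) (v : ι → ℕ) (hv : ∀ i ∈ s, 1 ≤ v i) :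
    ∏ i ∈ s, f ω (v i) = f ω (∏ i ∈ s, v i) := by
  classical
  induction s using Finset.induction_on with
  | empty => simp [f_one]
  | insert a s ha ih =>
    have h1 : 0 < ∏ i ∈ s, v i := Finset.prod_pos fun i hi =>
      Nat.lt_of_lt_of_le Nat.zero_lt_one (hv i (Finset.mem_insert_of_mem hi))
    have h2 := hv a (Finset.mem_insert_self _ _)
    rw [Finset.prod_insert ha, Finset.prod_insert ha, ih fun i hi => hv i (Finset.mem_insert_of_mem hi),
      f_mul ω (by omega) (by omega)]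

lemma pow_f (A : Finset ℕ) (c : ℕ → ℂ) (k : ℕ) (U : Finset ℕ) (hA : ∀ n ∈ A, 1 ≤ n)
    (hU : ∀ t ∈ Fintype.piFinset (fun _ : Fin k => A), ∏ i, t i ∈ U) (ω : Om) :
    (∑ n ∈ A, c n * f ω n) ^ k = ∑ m ∈ U, al A k c m * f ω m := by
  have e1 : (∑ n ∈ A, c n * f ω n) ^ k =
      ∑ t ∈ (Fintype.piFinset fun _ : Fin k => A), ∏ i, (c (t i) * f ω (t i)) := by
    rw [← Finset.prod_univ_sum (fun _ : Fin k => A) (fun _ p => c p * f ω p), Finset.prod_const,
      Finset.card_univ, Fintype.card_fin]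
  rw [e1, ← Finset.sum_fiberwise_of_maps_to hU]
  refine Finset.sum_congr rfl fun n _ => ?_
  rw [al, Finset.sum_mul]
  refine Finset.sum_congr rfl fun t ht => ?_
  rw [Finset.mem_filter, Fintype.mem_piFinset] at ht
  rw [Finset.prod_mul_distrib, f_prod ω univ t (fun i _ => hA _ (ht.1 i)), ht.2]

lemma sq_int (U : Finset ℕ) (hU0 : ∀ m ∈ U, 1 ≤ m) (C : ℕ → ℂ) :
    ∫ ω, ‖∑ m ∈ U, C m * f ω m‖ ^ 2 ∂PT = ∑ m ∈ U, ‖C m‖ ^ 2 := by
  have key : ((∫ ω, ‖∑ m ∈ U, C m * f ω m‖ ^ 2 ∂PT : ℝ) : ℂ) = ((∑ m ∈ U, ‖C m‖ ^ 2 : ℝ) : ℂ) := by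
    rw [← integral_complex_ofReal]
    have e1 : ∀ ω : Om, ((‖∑ m ∈ U, C m * f ω m‖ ^ 2 : ℝ) : ℂ) =
        ∑ m ∈ U, ∑ l ∈ U, (C m * star (C l)) * (f ω m * star (f ω l)) := by
      intro ω
      rw [← Complex.normSq_eq_norm_sq, ← Complex.mul_conj, map_sum, Finset.sum_mul_sum]
      refine Finset.sum_congr rfl fun n _ => Finset.sum_congr rfl fun k _ => ?_
      rw [map_mul]
      simp only [Complex.star_def]
      ring
    have hc : ∀ m l : ℕ, Continuous fun ω : Om => (C m * star (C l)) * (f ω m * star (f ω l)) :=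
      fun m l => continuous_const.mul ((f_cont m).mul (continuous_star.comp (f_cont l)))
    rw [integral_congr_ae (Filter.Eventually.of_forall e1),
      integral_finsetSum _ fun m _ => integrable_finsetSum _ fun l _ => int_cont (hc m l)]
    push_cast
    refine Finset.sum_congr rfl fun m hm => ?_
    rw [integral_finsetSum _ fun l _ => int_cont (hc m l)]
    have e2 : ∀ l ∈ U, ∫ ω, (C m * star (C l)) * (f ω m * star (f ω l)) ∂PT =
        if m = l then C m * star (C l) else 0 := by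
      intro l hl
      have hm1 := hU0 m hm
      have hl1 := hU0 l hl
      rw [integral_const_mul, orth (by omega) (by omega)]
      split_ifs <;> simp
    rw [Finset.sum_congr rfl e2, Finset.sum_ite_eq U m, if_pos hm, Complex.star_def, Complex.mul_conj,
      Complex.normSq_eq_norm_sq]
    push_cast
    rfl
  exact_mod_cast key

lemma mom (A : Finset ℕ) (c : ℕ → ℂ) (k : ℕ) (U : Finset ℕ) (hA : ∀ n ∈ A, 1 ≤ n)
    (hU0 : ∀ m ∈ U, 1 ≤ m) (hU : ∀ t ∈ Fintype.piFinset (fun _ : Fin k => A), ∏ i, t i ∈ U) :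
    ∫ ω, ‖∑ n ∈ A, c n * f ω n‖ ^ (2 * k) ∂PT = ∑ m ∈ U, ‖al A k c m‖ ^ 2 := by
  rw [← sq_int U hU0]
  refine integral_congr_ae (Filter.Eventually.of_forall fun ω => ?_)
  simp only
  rw [mul_comm 2 k, pow_mul, ← norm_pow, pow_f A c k U hA hU]

/-- real coefficients -/
noncomputable def bl (A : Finset ℕ) (k : ℕ) (b : ℕ → ℝ) (m : ℕ) : ℝ :=
  ∑ t ∈ (Fintype.piFinset fun _ : Fin k => A).filter (fun t => ∏ i, t i = m), ∏ i, b (t i)

lemma al_real (A : Finset ℕ) (k : ℕ) (b : ℕ → ℝ) (m : ℕ) :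
    al A k (fun n => (b n : ℂ)) m = (bl A k b m : ℂ) := by
  unfold al bl
  push_cast
  rfl

lemma bl_nonneg {A : Finset ℕ} {b : ℕ → ℝ} (hb : ∀ n ∈ A, 0 ≤ b n) (k m : ℕ) : 0 ≤ bl A k b m := by
  refine Finset.sum_nonneg fun t ht => Finset.prod_nonneg fun i _ => hb _ ?_
  rw [Finset.mem_filter, Fintype.mem_piFinset] at ht
  exact ht.1 i

lemma img_prop (A : Finset ℕ) (k : ℕ) (hA : ∀ n ∈ A, 1 ≤ n) :
    (∀ m ∈ (Fintype.piFinset fun _ : Fin k => A).image (fun t => ∏ i, t i), 1 ≤ m) ∧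
    (∀ t ∈ Fintype.piFinset (fun _ : Fin k => A),
      ∏ i, t i ∈ (Fintype.piFinset fun _ : Fin k => A).image (fun t => ∏ i, t i)) := by
  refine ⟨fun m hm => ?_, fun t ht => Finset.mem_image_of_mem _ ht⟩
  rw [Finset.mem_image] at hm
  obtain ⟨t, ht, rfl⟩ := hm
  rw [Fintype.mem_piFinset] at ht
  exact Nat.succ_le_of_lt (Finset.prod_pos fun i _ => Nat.lt_of_lt_of_le Nat.zero_lt_one (hA _ (ht i)))

/-- DOM -/
theorem dom : S_DOM := by
  refine ⟨fun A c b k h => ?_, fun s A B b k hk hB hAB hdis => ?_⟩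
  · have hA : ∀ n ∈ A, 1 ≤ n := fun n hn => (h n hn).1
    obtain ⟨hU0, hU⟩ := img_prop A k hA
    rw [mom A c k _ hA hU0 hU, mom A (fun n => (b n : ℂ)) k _ hA hU0 hU]
    refine Finset.sum_le_sum fun m _ => pow_le_pow_left₀ (norm_nonneg _) ?_ 2
    rw [al_real, Complex.norm_real, Real.norm_of_nonneg
      (bl_nonneg (fun n hn => (norm_nonneg _).trans (h n hn).2) k m)]
    unfold al bl
    refine norm_sum_le_of_le _ fun t ht => ?_
    rw [Finset.mem_filter, Fintype.mem_piFinset] at ht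
    rw [norm_prod]
    exact Finset.prod_le_prod (fun i _ => norm_nonneg _) fun i _ => (h _ (ht.1 i)).2
  · have hB1 : ∀ n ∈ B, 1 ≤ n := fun n hn => (hB n hn).1
    obtain ⟨hU0, hU⟩ := img_prop B k hB1
    set U := (Fintype.piFinset fun _ : Fin k => B).image (fun t => ∏ i, t i) with hUdef
    have hUi : ∀ i ∈ s, ∀ t ∈ Fintype.piFinset (fun _ : Fin k => A i), ∏ j, t j ∈ U := fun i hi t ht =>
      hU t (Fintype.piFinset_subset _ _ (fun _ => hAB i hi) ht)
    rw [mom B (fun n => (b n : ℂ)) k U hB1 hU0 hU]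
    have e1 : ∀ i ∈ s, ∫ ω, ‖∑ n ∈ A i, (b n : ℂ) * f ω n‖ ^ (2 * k) ∂PT =
        ∑ m ∈ U, bl (A i) k b m ^ 2 := by
      intro i hi
      rw [mom (A i) (fun n => (b n : ℂ)) k U (fun n hn => hB1 n (hAB i hi hn)) hU0 (hUi i hi)]
      refine Finset.sum_congr rfl fun m _ => ?_
      rw [al_real, Complex.norm_real, Real.norm_eq_abs, sq_abs]
    rw [Finset.sum_congr rfl e1, Finset.sum_comm]
    refine Finset.sum_le_sum fun m _ => ?_
    rw [al_real, Complex.norm_real, Real.norm_eq_abs, sq_abs]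
    have hn : ∀ i ∈ s, 0 ≤ bl (A i) k b m := fun i hi =>
      bl_nonneg (fun n hn => (hB n (hAB i hi hn)).2) k m
    have h2 : ∑ i ∈ s, bl (A i) k b m ≤ bl B k b m := by
      unfold bl
      rw [← Finset.sum_biUnion]
      · refine Finset.sum_le_sum_of_subset_of_nonneg ?_ fun t ht _ => Finset.prod_nonneg fun i _ => ?_
        · intro t ht
          rw [Finset.mem_biUnion] at ht
          obtain ⟨i, hi, ht⟩ := ht
          rw [Finset.mem_filter] at ht ⊢
          exact ⟨Fintype.piFinset_subset _ _ (fun _ => hAB i hi) ht.1, ht.2⟩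
        · rw [Finset.mem_filter, Fintype.mem_piFinset] at ht
          exact (hB _ (ht.1 i)).2
      · intro i hi j hj hij
        rw [Function.onFun, Finset.disjoint_left]
        intro t ht ht'
        rw [Finset.mem_filter, Fintype.mem_piFinset] at ht ht'
        have := hdis hi hj hij
        rw [Function.onFun, Finset.disjoint_left] at this
        exact this (ht.1 ⟨0, hk⟩) (ht'.1 ⟨0, hk⟩)
    have h3 : ∑ i ∈ s, bl (A i) k b m ^ 2 ≤ (∑ i ∈ s, bl (A i) k b m) ^ 2 := by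
      rw [sq, Finset.sum_mul]
      refine Finset.sum_le_sum fun i hi => ?_
      rw [sq]
      exact mul_le_mul_of_nonneg_left (Finset.single_le_sum hn hi) (hn i hi)
    exact h3.trans (pow_le_pow_left₀ (Finset.sum_nonneg hn) h2 2)

end Pool.Agent.Q299.FG
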