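import Pool.Agent.Q299.FG.Tup
import Pool.Agent.Helper112.MultLS

/-!
# Project FG of helper255, job HML: high moments over all primes `q ∈ (Q, 2Q]`
-/

set_option autoImplicit false

open MeasureTheory Finset

namespace Pool.Agent.Q299.FG

open Q289.PAM Pool.Agent.Q255.RM Pool.Agent.Q255.FG

lemma primitive_of_ne_one {q : ℕ} (hq : q.Prime) {χ : DirichletCharacter ℂ q} (h : χ ≠ 1) :
    χ.IsPrimitive := by
  haveI : NeZero q := ⟨hq.ne_zero⟩
  have h1 := DirichletCharacter.conductor_dvd_level χ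
  rcases (Nat.dvd_prime hq).1 h1 with h2 | h2
  · exact absurd (DirichletCharacter.eq_one_iff_conductor_eq_one.2 h2) h
  · exact h2

open Classical in
/-- HML -/
theorem hml (h : S_TUP) : S_HML := by
  intro Q b hQ hb P Y m c hP
  set A := al P m (fun p => c p * b p) with hA
  have key : ∀ q ∈ (Ioc Q (2 * Q)).filter Nat.Prime,
      ∑ ψ ∈ chars' q, ‖∑ p ∈ P, c p * b p * ψ p‖ ^ (2 * m) ≤
      ((q : ℝ) / (Nat.totient q : ℝ)) *
      ∑ χ ∈ (univ : Finset (DirichletCharacter ℂ q)).filter (fun χ => χ.IsPrimitive),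
        ‖∑ n ∈ Icc 1 (Y ^ m), A n * χ (n : ZMod q)‖ ^ 2 := by
    intro q hq
    rw [Finset.mem_filter] at hq
    have hp := hq.2
    haveI : NeZero q := ⟨hp.ne_zero⟩
    have e1 : ∀ χ : DirichletCharacter ℂ q, ‖∑ p ∈ P, c p * b p * χ (p : ZMod q)‖ ^ (2 * m) =
        ‖∑ n ∈ Icc 1 (Y ^ m), A n * χ (n : ZMod q)‖ ^ 2 := by
      intro χ
      rw [mul_comm 2 m, pow_mul, ← norm_pow, pow_al P Y m (fun p => c p * b p) hP
        (fun n => χ (n : ZMod q)) (by simp) (fun a b => by simp)]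
    have e0 : ∑ ψ ∈ chars' q, ‖∑ p ∈ P, c p * b p * ψ p‖ ^ (2 * m) =
        ∑ χ ∈ (univ : Finset (DirichletCharacter ℂ q)).filter (· ≠ 1),
          ‖∑ n ∈ Icc 1 (Y ^ m), A n * χ (n : ZMod q)‖ ^ 2 := by
      rw [chars', dif_neg hp.ne_zero]
      rw [Finset.sum_image fun χ _ χ' _ hh => char_inj q hh]
      refine Finset.sum_congr ?_ fun χ _ => e1 χ
      congr!
    rw [e0]
    have e2 : ∑ χ ∈ (univ : Finset (DirichletCharacter ℂ q)).filter (· ≠ 1),
          ‖∑ n ∈ Icc 1 (Y ^ m), A n * χ (n : ZMod q)‖ ^ 2 ≤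
        ∑ χ ∈ (univ : Finset (DirichletCharacter ℂ q)).filter (fun χ => χ.IsPrimitive),
        ‖∑ n ∈ Icc 1 (Y ^ m), A n * χ (n : ZMod q)‖ ^ 2 := by
      refine Finset.sum_le_sum_of_subset_of_nonneg ?_ fun _ _ _ => by positivity
      intro χ hχ
      rw [Finset.mem_filter] at hχ ⊢
      exact ⟨hχ.1, primitive_of_ne_one hp hχ.2⟩
    refine e2.trans (le_mul_of_one_le_left (Finset.sum_nonneg fun _ _ => by positivity) ?_)
    rw [one_le_div (by exact_mod_cast Nat.totient_pos.2 hp.pos)]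
    exact_mod_cast Nat.totient_le q
  refine (Finset.sum_le_sum key).trans ?_
  have hsub : (Ioc Q (2 * Q)).filter Nat.Prime ⊆ Icc 1 (2 * Q) := by
    intro q hq
    rw [Finset.mem_filter, Finset.mem_Ioc] at hq
    rw [Finset.mem_Icc]
    exact ⟨hq.2.one_le, hq.1.2⟩
  refine (Finset.sum_le_sum_of_subset_of_nonneg hsub fun f _ _ =>
    mul_nonneg (by positivity) (Finset.sum_nonneg fun _ _ => by positivity)).trans ?_
  refine (Pool.Agent.Helper112.mult_large_sieve (Y ^ m) (2 * Q) A).trans ?_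
  push_cast
  have e5 : 6 * ((Y : ℝ) ^ m + (2 * (Q : ℝ)) ^ 2) = 6 * ((Y : ℝ) ^ m + 4 * (Q : ℝ) ^ 2) := by ring
  rw [e5]
  have h6 : (0 : ℝ) ≤ 6 * ((Y : ℝ) ^ m + 4 * (Q : ℝ) ^ 2) := by positivity
  refine (mul_le_mul_of_nonneg_left (sum_al P Y m _ hP h) h6).trans ?_
  rw [mul_assoc (6 * ((Y : ℝ) ^ m + 4 * (Q : ℝ) ^ 2))]
  refine mul_le_mul_of_nonneg_left ?_ h6
  exact mul_le_mul_of_nonneg_left (pow_sum_le hb m) (by positivity)

end Pool.Agent.Q299.FG
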