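import Pool.Agent.Q255.FG.Stm

/-!
# Project FG of helper255, job SG: subgroups of the dual group
-/

set_option autoImplicit false

open MeasureTheory Finset

namespace Pool.Agent.Q299.FG

open Q289.PAM Pool.Agent.Q255.RM Pool.Agent.Q255.FG

lemma eq_ker {G : Type*} [CommGroup G] [IsCyclic G] [Finite G] (H : Subgroup G) :
    H = (powMonoidHom (Nat.card H) : G →* G).ker := by
  have hle : H ≤ (powMonoidHom (Nat.card H) : G →* G).ker := by
    intro x hx
    rw [MonoidHom.mem_ker, powMonoidHom_apply]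
    have h1 : (⟨x, hx⟩ : H) ^ Nat.card H = 1 := pow_card_eq_one'
    exact congrArg Subtype.val h1
  refine Subgroup.eq_of_le_of_card_ge hle ?_
  rw [IsCyclic.card_powMonoidHom_ker]
  exact Nat.gcd_le_right _ Nat.card_pos

lemma card_sub {G : Type*} [CommGroup G] [IsCyclic G] [Finite G] :
    Nat.card (Subgroup G) ≤ (Nat.card G).divisors.card := by
  have hinj : Function.Injective (fun H : Subgroup G => (⟨Nat.card H, by
      rw [Nat.mem_divisors]
      exact ⟨Subgroup.card_subgroup_dvd_card H, Nat.card_pos.ne'⟩⟩ : (Nat.card G).divisors)) := by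
    intro H K h
    have h' : Nat.card H = Nat.card K := congrArg Subtype.val h
    rw [eq_ker H, eq_ker K, h']
  have h := Nat.card_le_card_of_injective _ hinj
  rwa [Nat.card_eq_fintype_card (α := { x // x ∈ (Nat.card G).divisors }), Fintype.card_coe] at h

lemma sum_div (Q : ℕ) : ∑ n ∈ Icc 1 Q, n.divisors.card = ∑ d ∈ Icc 1 Q, Q / d := by
  have h1 : ∀ n ∈ Icc 1 Q, n.divisors.card = ∑ d ∈ Icc 1 Q, if d ∣ n then 1 else 0 := by
    intro n hn
    rw [Finset.mem_Icc] at hn
    rw [Finset.sum_ite, Finset.sum_const_zero, add_zero, Finset.sum_const, smul_eq_mul, mul_one]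
    congr 1
    ext d
    rw [Nat.mem_divisors, Finset.mem_filter, Finset.mem_Icc]
    constructor
    · rintro ⟨h, h'⟩
      exact ⟨⟨Nat.pos_of_dvd_of_pos h (by omega), (Nat.le_of_dvd (by omega) h).trans hn.2⟩, h⟩
    · rintro ⟨_, h⟩
      exact ⟨h, by omega⟩
  rw [Finset.sum_congr rfl h1, Finset.sum_comm]
  refine Finset.sum_congr rfl fun d hd => ?_
  rw [Finset.sum_ite, Finset.sum_const_zero, add_zero, Finset.sum_const, smul_eq_mul, mul_one]
  exact Nat.Ioc_filter_dvd_card_eq_div Q d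

/-- SG -/
theorem sg : S_SG := by
  refine ⟨fun q hq => ?_, fun Q hQ => ?_⟩
  · haveI : NeZero q := ⟨hq.ne_zero⟩
    haveI : Fact q.Prime := ⟨hq⟩
    obtain ⟨e⟩ := DirichletCharacter.mulEquiv_units ℂ q
    haveI : Finite (DirichletCharacter ℂ q) := Finite.of_equiv _ e.symm.toEquiv
    haveI : IsCyclic (DirichletCharacter ℂ q) := isCyclic_of_surjective e.symm e.symm.surjective
    have h := card_sub (G := DirichletCharacter ℂ q)
    have h2 : Nat.card (DirichletCharacter ℂ q) = q - 1 := by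
      rw [Nat.card_congr e.toEquiv, Nat.card_eq_fintype_card, ZMod.card_units]
    rwa [h2] at h
  · have h1 : ∑ q ∈ (Icc 1 Q).filter Nat.Prime, (q - 1).divisors.card ≤ ∑ n ∈ Icc 1 Q, n.divisors.card := by
      have h2 : ∑ q ∈ (Icc 1 Q).filter Nat.Prime, (q - 1).divisors.card =
          ∑ n ∈ ((Icc 1 Q).filter Nat.Prime).image (fun q => q - 1), n.divisors.card := by
        rw [Finset.sum_image]
        intro a ha b hb hab
        rw [Finset.mem_coe, Finset.mem_filter, Finset.mem_Icc] at ha hb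
        have := ha.2.two_le
        have := hb.2.two_le
        simp only at hab
        omega
      rw [h2]
      refine Finset.sum_le_sum_of_subset ?_
      intro n hn
      rw [Finset.mem_image] at hn
      obtain ⟨q, hq, rfl⟩ := hn
      rw [Finset.mem_filter, Finset.mem_Icc] at hq
      rw [Finset.mem_Icc]
      have := hq.2.two_le
      omega
    have h3 : ((∑ d ∈ Icc 1 Q, Q / d : ℕ) : ℝ) ≤ Q * ∑ d ∈ Icc 1 Q, (1 / (d : ℝ)) := by
      push_cast
      rw [Finset.mul_sum]
      refine Finset.sum_le_sum fun d hd => ?_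
      rw [mul_one_div]
      exact Nat.cast_div_le
    have h4 : ∑ d ∈ Icc 1 Q, (1 / (d : ℝ)) ≤ 1 + Real.log Q := by
      have h5 := harmonic_le_one_add_log Q
      rw [harmonic_eq_sum_Icc] at h5
      push_cast at h5
      simpa [one_div] using h5
    calc ∑ q ∈ (Icc 1 Q).filter Nat.Prime, ((q - 1).divisors.card : ℝ)
        = ((∑ q ∈ (Icc 1 Q).filter Nat.Prime, (q - 1).divisors.card : ℕ) : ℝ) := by push_cast; rfl
      _ ≤ ((∑ n ∈ Icc 1 Q, n.divisors.card : ℕ) : ℝ) := by exact_mod_cast h1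
      _ = ((∑ d ∈ Icc 1 Q, Q / d : ℕ) : ℝ) := by rw [sum_div]
      _ ≤ Q * ∑ d ∈ Icc 1 Q, (1 / (d : ℝ)) := h3
      _ ≤ Q * (1 + Real.log Q) := mul_le_mul_of_nonneg_left h4 (by positivity)

end Pool.Agent.Q299.FG
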