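import Pool.Agent.Q299.FG.Dom

/-!
# Project FG of helper255, job U3: the maximal inequality
-/

set_option autoImplicit false

open MeasureTheory Finset

namespace Pool.Agent.Q299.FG

open Q289.PAM Pool.Agent.Q255.RM Pool.Agent.Q255.FG

/-- dyadic block -/
def blk (j i : ℕ) : Finset ℕ := Ioc (i * 2 ^ j) ((i + 1) * 2 ^ j)

lemma step_eq (x : ℕ → ℂ) (N j : ℕ) :
    ∑ n ∈ Icc 1 (N / 2 ^ j * 2 ^ j), x n - ∑ n ∈ Icc 1 (N / 2 ^ (j + 1) * 2 ^ (j + 1)), x n = 0 ∨
    ∃ i, (i + 1) * 2 ^ j ≤ N ∧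
      ∑ n ∈ Icc 1 (N / 2 ^ j * 2 ^ j), x n - ∑ n ∈ Icc 1 (N / 2 ^ (j + 1) * 2 ^ (j + 1)), x n =
        ∑ n ∈ blk j i, x n := by
  set M := N / 2 ^ j with hM
  have h1 : N / 2 ^ (j + 1) = M / 2 := by rw [pow_succ, ← Nat.div_div_eq_div_mul]
  have hMN : M * 2 ^ j ≤ N := Nat.div_mul_le_self _ _
  rw [h1]
  rcases Nat.even_or_odd' M with ⟨c, hc | hc⟩
  · left
    have : M / 2 * 2 ^ (j + 1) = M * 2 ^ j := by
      rw [hc, Nat.mul_div_cancel_left _ (by norm_num), pow_succ]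
      ring
    rw [this, sub_self]
  · right
    refine ⟨2 * c, by rw [← hc]; exact hMN, ?_⟩
    have h2 : M / 2 * 2 ^ (j + 1) = 2 * c * 2 ^ j := by
      have : M / 2 = c := by omega
      rw [this, pow_succ]
      ring
    rw [h2, hc]
    have h3 : ∑ n ∈ Icc 1 ((2 * c + 1) * 2 ^ j), x n =
        ∑ n ∈ Icc 1 (2 * c * 2 ^ j), x n + ∑ n ∈ blk j (2 * c), x n := by
      unfold blk
      have e : ∀ m : ℕ, Icc 1 m = Ioc 0 m := fun m => by
        ext a
        rw [Finset.mem_Icc, Finset.mem_Ioc]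
        omega
      rw [e, e, ← Finset.sum_union]
      · congr 1
        ext a
        rw [Finset.mem_union, Finset.mem_Ioc, Finset.mem_Ioc, Finset.mem_Ioc]
        have : 2 * c * 2 ^ j ≤ (2 * c + 1) * 2 ^ j := Nat.mul_le_mul_right _ (by omega)
        omega
      · rw [Finset.disjoint_left]
        intro a ha hb
        rw [Finset.mem_Ioc] at ha hb
        omega
    rw [h3]
    ring

lemma dyadic (x : ℕ → ℂ) (k r N : ℕ) (hk : 1 ≤ k) (hN : N ≤ 2 ^ r) :
    ‖∑ n ∈ Icc 1 N, x n‖ ^ (2 * k) ≤ ((r : ℝ) + 1) ^ (2 * k - 1) *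
      ∑ j ∈ range (r + 1), ∑ i ∈ range (2 ^ (r - j)), ‖∑ n ∈ blk j i, x n‖ ^ (2 * k) := by
  set y : ℕ → ℂ := fun j => ∑ n ∈ Icc 1 (N / 2 ^ j * 2 ^ j), x n with hy
  have h0 : y 0 = ∑ n ∈ Icc 1 N, x n := by simp [hy]
  have h1 : y (r + 1) = 0 := by
    have : N / 2 ^ (r + 1) = 0 := Nat.div_eq_of_lt (lt_of_le_of_lt hN (Nat.pow_lt_pow_right (by norm_num) (by omega)))
    simp [hy, this]
  have h2 : ∑ n ∈ Icc 1 N, x n = ∑ j ∈ range (r + 1), (y j - y (j + 1)) := by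
    rw [Finset.sum_range_sub', h0, h1, sub_zero]
  have h3 : ∀ j ∈ range (r + 1), ‖y j - y (j + 1)‖ ^ (2 * k) ≤
      ∑ i ∈ range (2 ^ (r - j)), ‖∑ n ∈ blk j i, x n‖ ^ (2 * k) := by
    intro j hj
    rw [Finset.mem_range] at hj
    rcases step_eq x N j with h | ⟨i, hi, h⟩
    · have : y j - y (j + 1) = 0 := h
      rw [this, norm_zero, zero_pow (by omega)]
      exact Finset.sum_nonneg fun _ _ => by positivity
    · have h4 : y j - y (j + 1) = ∑ n ∈ blk j i, x n := h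
      rw [h4]
      have hmem : i ∈ range (2 ^ (r - j)) := by
        rw [Finset.mem_range]
        have h5 : (i + 1) * 2 ^ j ≤ 2 ^ (r - j) * 2 ^ j := by
          rw [← pow_add, Nat.sub_add_cancel (by omega)]
          exact hi.trans hN
        have := Nat.le_of_mul_le_mul_right h5 (by positivity)
        omega
      exact Finset.single_le_sum (f := fun i => ‖∑ n ∈ blk j i, x n‖ ^ (2 * k))
        (fun _ _ => by positivity) hmem
  have h4 : ‖∑ n ∈ Icc 1 N, x n‖ ≤ ∑ j ∈ range (r + 1), ‖y j - y (j + 1)‖ := by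
    rw [h2]
    exact norm_sum_le _ _
  have h5 := pow_sum_div_card_le_sum_pow (s := range (r + 1)) (f := fun j => ‖y j - y (j + 1)‖)
    (fun _ _ => norm_nonneg _) (2 * k - 1)
  rw [Finset.card_range, Nat.sub_add_cancel (by omega), div_le_iff₀ (by positivity)] at h5
  calc ‖∑ n ∈ Icc 1 N, x n‖ ^ (2 * k) ≤ (∑ j ∈ range (r + 1), ‖y j - y (j + 1)‖) ^ (2 * k) :=
        pow_le_pow_left₀ (norm_nonneg _) h4 _
    _ ≤ _ := h5
    _ = ((r : ℝ) + 1) ^ (2 * k - 1) * ∑ j ∈ range (r + 1), ‖y j - y (j + 1)‖ ^ (2 * k) := by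
        push_cast
        ring
    _ ≤ _ := mul_le_mul_of_nonneg_left (Finset.sum_le_sum h3) (by positivity)

/-- U3 -/
theorem u3 (h : S_DOM) : S_U3 := by
  intro a ha k r hk
  set b : ℕ → ℝ := fun n => (Real.sqrt (n : ℕ))⁻¹ with hb
  set T := ∫ ω, ‖∑ n ∈ Icc 1 (2 ^ r), (b n : ℂ) * f ω n‖ ^ (2 * k) ∂PT with hT
  set x : Om → ℕ → ℂ := fun ω n => f ω n * a n / ((Real.sqrt n : ℝ) : ℂ) with hx
  have hxc : ∀ n, Continuous fun ω => x ω n := fun n =>
    ((f_cont n).mul continuous_const).div_const _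
  have hbc : ∀ j i, Continuous fun ω => ‖∑ n ∈ blk j i, x ω n‖ ^ (2 * k) := fun j i =>
    (continuous_finsetSum _ fun n _ => hxc n).norm.pow _
  -- pointwise
  have h1 : ∀ ω : Om, ((range (2 ^ r + 1)).sup' ⟨0, by simp⟩ fun N => ‖S ω a N‖) ^ (2 * k) ≤
      ((r : ℝ) + 1) ^ (2 * k - 1) *
      ∑ j ∈ range (r + 1), ∑ i ∈ range (2 ^ (r - j)), ‖∑ n ∈ blk j i, x ω n‖ ^ (2 * k) := by
    intro ω
    obtain ⟨N, hN, hN2⟩ := Finset.exists_mem_eq_sup' (s := range (2 ^ r + 1)) ⟨0, by simp⟩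
      (fun N => ‖S ω a N‖)
    rw [hN2]
    rw [Finset.mem_range] at hN
    exact dyadic (x ω) k r N hk (by omega)
  have hcR : Continuous fun ω : Om => ((r : ℝ) + 1) ^ (2 * k - 1) *
      ∑ j ∈ range (r + 1), ∑ i ∈ range (2 ^ (r - j)), ‖∑ n ∈ blk j i, x ω n‖ ^ (2 * k) :=
    continuous_const.mul (continuous_finsetSum _ fun j _ => continuous_finsetSum _ fun i _ => hbc j i)
  have hcL : Continuous fun ω : Om =>
      ((range (2 ^ r + 1)).sup' ⟨0, by simp⟩ fun N => ‖S ω a N‖) ^ (2 * k) := by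
    refine Continuous.pow ?_ _
    exact Continuous.finset_sup'_apply _ fun N _ => (S_cont a N).norm
  have h2 := integral_mono (int_cont hcL) (int_cont hcR) h1
  refine h2.trans ?_
  rw [integral_const_mul, integral_finsetSum _ fun j _ => integrable_finsetSum _ fun i _ =>
    int_cont (hbc j i)]
  have h3 : ∀ j ∈ range (r + 1), ∫ ω, ∑ i ∈ range (2 ^ (r - j)),
      ‖∑ n ∈ blk j i, x ω n‖ ^ (2 * k) ∂PT ≤ T := by
    intro j hj
    rw [Finset.mem_range] at hj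
    rw [integral_finsetSum _ fun i _ => int_cont (hbc j i)]
    have hpos : ∀ i, ∀ n ∈ blk j i, 1 ≤ n := fun i n hn => by
      rw [blk, Finset.mem_Ioc] at hn
      omega
    have h4 : ∀ i ∈ range (2 ^ (r - j)), ∫ ω, ‖∑ n ∈ blk j i, x ω n‖ ^ (2 * k) ∂PT ≤
        ∫ ω, ‖∑ n ∈ blk j i, (b n : ℂ) * f ω n‖ ^ (2 * k) ∂PT := by
      intro i _
      have h5 := h.1 (blk j i) (fun n => a n / ((Real.sqrt n : ℝ) : ℂ)) b k (fun n hn => ⟨hpos i n hn, by
        rw [norm_div, Complex.norm_real, Real.norm_of_nonneg (Real.sqrt_nonneg _), hb, div_eq_mul_inv]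
        exact mul_le_of_le_one_left (by positivity) (ha n)⟩)
      refine le_of_eq_of_le ?_ h5
      refine integral_congr_ae (Filter.Eventually.of_forall fun ω => ?_)
      simp only [hx]
      congr 2
      refine Finset.sum_congr rfl fun n _ => ?_
      ring
    refine (Finset.sum_le_sum h4).trans ?_
    refine h.2 (range (2 ^ (r - j))) (blk j) (Icc 1 (2 ^ r)) b k hk (fun n hn => ?_) (fun i hi => ?_) ?_
    · rw [Finset.mem_Icc] at hn
      exact ⟨hn.1, by positivity⟩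
    · intro n hn
      have := hpos i n hn
      rw [blk, Finset.mem_Ioc] at hn
      rw [Finset.mem_range] at hi
      rw [Finset.mem_Icc]
      refine ⟨this, hn.2.trans ?_⟩
      calc (i + 1) * 2 ^ j ≤ 2 ^ (r - j) * 2 ^ j := Nat.mul_le_mul_right _ (by omega)
        _ = 2 ^ r := by rw [← pow_add, Nat.sub_add_cancel (by omega)]
    · intro i _ l _ hil
      rw [Function.onFun, Finset.disjoint_left]
      intro n hn hn'
      rw [blk, Finset.mem_Ioc] at hn hn'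
      rcases Nat.lt_or_gt_of_ne hil with h5 | h5
      · have : (i + 1) * 2 ^ j ≤ l * 2 ^ j := Nat.mul_le_mul_right _ (by omega)
        omega
      · have : (l + 1) * 2 ^ j ≤ i * 2 ^ j := Nat.mul_le_mul_right _ (by omega)
        omega
  have h6 : ∑ j ∈ range (r + 1), ∫ ω, ∑ i ∈ range (2 ^ (r - j)),
      ‖∑ n ∈ blk j i, x ω n‖ ^ (2 * k) ∂PT ≤ ((r : ℝ) + 1) * T := by
    refine (Finset.sum_le_sum h3).trans (le_of_eq ?_)
    rw [Finset.sum_const, Finset.card_range, nsmul_eq_mul]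
    push_cast
    rfl
  refine (mul_le_mul_of_nonneg_left h6 (by positivity)).trans (le_of_eq ?_)
  rw [← mul_assoc, ← pow_succ, Nat.sub_add_cancel (by omega)]

end Pool.Agent.Q299.FG
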