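import Pool.Agent.Q299.FG.Dom

/-!
# Project FG of helper255, job U4: large deviations, upper bound
-/

set_option autoImplicit false

open MeasureTheory Finset

namespace Pool.Agent.Q299.FG

open Q289.PAM Pool.Agent.Q255.RM Pool.Agent.Q255.FG

lemma real_bound {ε C v l w k Λ R μ : ℝ} (hε : 0 < ε) (hv1 : ε ≤ v) (hv2 : v ≤ 2) (hC : 0 < C)
    (hw : 1 ≤ w) (hl : 0 < l) (hk1 : 2 * v * w ≤ k) (hk2 : k ≤ 2 * v * w + 1)
    (hΛ0 : 0 ≤ Λ) (hΛ : Λ ≤ l / 2 + μ) (hR : R ≤ 2 * l) (hμ0 : 0 ≤ μ) (hμ : μ ≤ l / 2)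
    (h4 : 16 * μ + 25 * C ≤ ε / 2 * l) (h5 : 29 + 5 * C ≤ ε / 2 * w) :
    2 * k * R + k ^ 2 * Λ + C * k ^ 2 + C * k * Λ - 2 * k * (v * (w * l)) ≤
      (ε - 2 * v ^ 2) * (w ^ 2 * l) := by
  have hv : 0 < v := lt_of_lt_of_le hε hv1
  have hk0 : 0 ≤ k := le_trans (by positivity) hk1
  have hk5 : k ≤ 5 * w := by nlinarith
  have hΛl : Λ ≤ l := by linarith
  have hvw : v * w ≤ 2 * w := mul_le_mul_of_nonneg_right hv2 (by linarith)
  have hksq : k ^ 2 ≤ 4 * v ^ 2 * w ^ 2 + 9 * w := by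
    have : k ^ 2 ≤ (2 * v * w + 1) ^ 2 := pow_le_pow_left₀ hk0 hk2 2
    nlinarith
  have hksq25 : k ^ 2 ≤ 25 * w ^ 2 := by
    have : k ^ 2 ≤ (5 * w) ^ 2 := pow_le_pow_left₀ hk0 hk5 2
    nlinarith
  -- first term
  have t1 : 2 * k * R ≤ 20 * w * l := by
    calc 2 * k * R ≤ 2 * k * (2 * l) := mul_le_mul_of_nonneg_left hR (by linarith)
      _ = k * (4 * l) := by ring
      _ ≤ 5 * w * (4 * l) := mul_le_mul_of_nonneg_right hk5 (by linarith)
      _ = 20 * w * l := by ring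
  have t2 : k ^ 2 * Λ ≤ 2 * v ^ 2 * (w ^ 2 * l) + 16 * w ^ 2 * μ + 9 * w * l := by
    calc k ^ 2 * Λ ≤ (4 * v ^ 2 * w ^ 2 + 9 * w) * Λ := mul_le_mul_of_nonneg_right hksq hΛ0
      _ = 4 * v ^ 2 * w ^ 2 * Λ + 9 * w * Λ := by ring
      _ ≤ 4 * v ^ 2 * w ^ 2 * (l / 2 + μ) + 9 * w * l :=
          add_le_add (mul_le_mul_of_nonneg_left hΛ (by positivity))
            (mul_le_mul_of_nonneg_left hΛl (by positivity))
      _ = 2 * v ^ 2 * (w ^ 2 * l) + (4 * v ^ 2) * (w ^ 2 * μ) + 9 * w * l := by ring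
      _ ≤ 2 * v ^ 2 * (w ^ 2 * l) + 16 * (w ^ 2 * μ) + 9 * w * l := by
          have h6 : 4 * v ^ 2 ≤ 16 := by nlinarith
          have := mul_le_mul_of_nonneg_right h6 (show (0 : ℝ) ≤ w ^ 2 * μ by positivity)
          linarith
      _ = _ := by ring
  have t3 : C * k ^ 2 ≤ 25 * C * w ^ 2 := by
    calc C * k ^ 2 ≤ C * (25 * w ^ 2) := mul_le_mul_of_nonneg_left hksq25 hC.le
      _ = _ := by ring
  have t4 : C * k * Λ ≤ 5 * C * w * l := by
    calc C * k * Λ ≤ C * k * l := mul_le_mul_of_nonneg_left hΛl (by positivity)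
      _ = k * (C * l) := by ring
      _ ≤ 5 * w * (C * l) := mul_le_mul_of_nonneg_right hk5 (by positivity)
      _ = _ := by ring
  have t5 : 4 * v ^ 2 * (w ^ 2 * l) ≤ 2 * k * (v * (w * l)) := by
    calc 4 * v ^ 2 * (w ^ 2 * l) = 2 * (2 * v * w) * (v * (w * l)) := by ring
      _ ≤ 2 * k * (v * (w * l)) := mul_le_mul_of_nonneg_right (by linarith) (by positivity)
  have t6 : w ^ 2 * (16 * μ + 25 * C) ≤ w ^ 2 * (ε / 2 * l) := mul_le_mul_of_nonneg_left h4 (by positivity)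
  have t7 : (w * l) * (29 + 5 * C) ≤ (w * l) * (ε / 2 * w) := mul_le_mul_of_nonneg_left h5 (by positivity)
  nlinarith

lemma log_le_two_sqrt {x : ℝ} (hx : 0 < x) : Real.log x ≤ 2 * Real.sqrt x := by
  have h1 : Real.log x = 2 * Real.log (Real.sqrt x) := by
    rw [Real.log_sqrt hx.le]
    ring
  rw [h1]
  have := Real.log_le_sub_one_of_pos (Real.sqrt_pos.2 hx)
  linarith

/-- the size conditions -/
lemma par_real {ε C : ℝ} (hε : 0 < ε) (hC : 0 < C) : ∃ X : ℝ, ∀ L : ℝ, X ≤ L →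
    2500 ≤ L ∧ 4 ≤ Real.log L ∧ 5 ≤ Real.sqrt (L / Real.log L) ∧
    0 ≤ Real.log (Real.log L) / 2 + Real.log (1 + 1 / ε) ∧
    Real.log (Real.log L) / 2 + Real.log (1 + 1 / ε) ≤ Real.log L / 2 ∧
    16 * (Real.log (Real.log L) / 2 + Real.log (1 + 1 / ε)) + 25 * C ≤ ε / 2 * Real.log L ∧
    29 + 5 * C ≤ ε / 2 * Real.sqrt (L / Real.log L) := by
  set D := Real.log (1 + 1 / ε) with hD
  have hD0 : 0 ≤ D := Real.log_nonneg (by
    have : 0 < 1 / ε := by positivity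
    linarith)
  set W := 2 / ε * (29 + 5 * C) + 5 with hW
  have hW5 : 5 ≤ W := by
    have : 0 ≤ 2 / ε * (29 + 5 * C) := by positivity
    linarith
  set s := 2 / ε * (16 + 16 * D + 25 * C) + 2 * (1 + D) + 2 with hs
  have hA0 : 0 ≤ 2 / ε * (16 + 16 * D + 25 * C) := by positivity
  have hs2 : 2 ≤ s := by linarith
  refine ⟨4 * W ^ 4 + Real.exp (s ^ 2), fun L hLb => ?_⟩
  have hexp : 1 ≤ Real.exp (s ^ 2) := Real.one_le_exp (by positivity)
  have hW4 : 4 * W ^ 4 ≤ L := by linarith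
  have hW2 : 25 ≤ W ^ 2 := by nlinarith
  have hW44 : W ^ 4 = W ^ 2 * W ^ 2 := by ring
  have hW625 : 625 ≤ W ^ 4 := by
    rw [hW44]
    nlinarith
  have hL1 : 2500 ≤ L := by linarith
  have hL0 : 0 < L := by linarith
  set l := Real.log L with hl
  have hls : s ^ 2 ≤ l := by
    rw [hl, Real.le_log_iff_exp_le hL0]
    linarith
  have hs4 : 4 ≤ s ^ 2 := by nlinarith
  have hl4 : 4 ≤ l := hs4.trans hls
  have hl0 : 0 < l := by linarith
  have hsl : s ≤ Real.sqrt l := Real.le_sqrt_of_sq_le hls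
  have hsq : Real.sqrt l * Real.sqrt l = l := Real.mul_self_sqrt hl0.le
  have hWw : W ≤ Real.sqrt (L / l) := by
    refine Real.le_sqrt_of_sq_le ?_
    rw [le_div_iff₀ hl0]
    have h6 : l ≤ 2 * Real.sqrt L := log_le_two_sqrt hL0
    have h7 : 2 * W ^ 2 ≤ Real.sqrt L := by
      refine Real.le_sqrt_of_sq_le ?_
      calc (2 * W ^ 2) ^ 2 = 4 * W ^ 4 := by ring
        _ ≤ L := hW4
    have h8 : Real.sqrt L * Real.sqrt L = L := Real.mul_self_sqrt hL0.le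
    calc W ^ 2 * l ≤ W ^ 2 * (2 * Real.sqrt L) := mul_le_mul_of_nonneg_left h6 (by positivity)
      _ = 2 * W ^ 2 * Real.sqrt L := by ring
      _ ≤ Real.sqrt L * Real.sqrt L := mul_le_mul_of_nonneg_right h7 (Real.sqrt_nonneg _)
      _ = L := h8
  have hlogl : Real.log l ≤ 2 * Real.sqrt l := log_le_two_sqrt hl0
  have hlogl0 : 0 ≤ Real.log l := Real.log_nonneg (by linarith)
  have hsq1 : 1 ≤ Real.sqrt l := by linarith
  have hDs : D ≤ D * Real.sqrt l := le_mul_of_one_le_right hD0 hsq1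
  have hCs : C ≤ C * Real.sqrt l := le_mul_of_one_le_right hC.le hsq1
  refine ⟨hL1, hl4, hW5.trans hWw, by positivity, ?_, ?_, ?_⟩
  · have h6 : 2 * (1 + D) ≤ Real.sqrt l := by linarith
    have h7 : 2 * (1 + D) * Real.sqrt l ≤ l := by
      calc 2 * (1 + D) * Real.sqrt l ≤ Real.sqrt l * Real.sqrt l :=
            mul_le_mul_of_nonneg_right h6 (by linarith)
        _ = l := hsq
    have h9 : 2 * (1 + D) * Real.sqrt l = 2 * Real.sqrt l + 2 * (D * Real.sqrt l) := by ring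
    linarith
  · have h6 : 2 / ε * (16 + 16 * D + 25 * C) ≤ Real.sqrt l := by linarith
    have h7 : (16 + 16 * D + 25 * C) ≤ ε / 2 * Real.sqrt l := by
      calc (16 + 16 * D + 25 * C) = ε / 2 * (2 / ε * (16 + 16 * D + 25 * C)) := by field_simp
        _ ≤ _ := mul_le_mul_of_nonneg_left h6 (by positivity)
    have h8 : (16 + 16 * D + 25 * C) * Real.sqrt l ≤ ε / 2 * l := by
      calc (16 + 16 * D + 25 * C) * Real.sqrt l ≤ ε / 2 * Real.sqrt l * Real.sqrt l :=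
            mul_le_mul_of_nonneg_right h7 (by linarith)
        _ = ε / 2 * (Real.sqrt l * Real.sqrt l) := by ring
        _ = ε / 2 * l := by rw [hsq]
    have h9 : (16 + 16 * D + 25 * C) * Real.sqrt l =
        16 * Real.sqrt l + 16 * (D * Real.sqrt l) + 25 * (C * Real.sqrt l) := by ring
    linarith
  · have h6 : 2 / ε * (29 + 5 * C) ≤ Real.sqrt (L / l) := by linarith
    calc 29 + 5 * C = ε / 2 * (2 / ε * (29 + 5 * C)) := by field_simp
      _ ≤ _ := mul_le_mul_of_nonneg_left h6 (by positivity)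

lemma exists_r {N : ℕ} (hN2 : 2 ≤ N) : ∃ r : ℕ, 1 ≤ r ∧ N ≤ 2 ^ r ∧
    Real.log N ≤ Real.log ((2 ^ r : ℕ) : ℝ) ∧ Real.log ((2 ^ r : ℕ) : ℝ) ≤ Real.log N + 1 ∧
    (r : ℝ) * 0.6 ≤ Real.log N + 1 := by
  have hNpos : (0 : ℝ) < N := by positivity
  set r := Nat.clog 2 N with hr
  have hNr2 : N ≤ 2 ^ r := Nat.le_pow_clog (by norm_num) N
  have hr1 : 1 ≤ r := Nat.one_le_iff_ne_zero.2 fun h0 => by
    rw [h0] at hNr2
    omega
  have hr2 : 2 ^ r ≤ 2 * N := by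
    have h6 : 2 ^ (r - 1) < N := by
      have := Nat.pow_pred_clog_lt_self (b := 2) (by norm_num) (x := N) (by omega)
      simpa [hr] using this
    have h7 : 2 ^ r = 2 * 2 ^ (r - 1) := by
      conv_lhs => rw [← Nat.sub_add_cancel hr1, pow_succ]
      ring
    omega
  have hlog2 : Real.log 2 ≤ 1 := by
    have := Real.log_two_lt_d9
    linarith
  have hlog2' : 0.6 < Real.log 2 := by
    have := Real.log_two_gt_d9
    linarith
  have hL'2 : Real.log ((2 ^ r : ℕ) : ℝ) ≤ Real.log N + Real.log 2 := by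
    have h6 : Real.log ((2 ^ r : ℕ) : ℝ) ≤ Real.log (2 * N) :=
      Real.log_le_log (by positivity) (by exact_mod_cast hr2)
    rw [Real.log_mul (by norm_num) hNpos.ne'] at h6
    linarith
  have h6 : Real.log ((2 ^ r : ℕ) : ℝ) = r * Real.log 2 := by
    push_cast
    rw [Real.log_pow]
  refine ⟨r, hr1, hNr2, Real.log_le_log hNpos (by exact_mod_cast hNr2), by linarith, ?_⟩
  have h8 : (r : ℝ) * 0.6 ≤ r * Real.log 2 := mul_le_mul_of_nonneg_left hlog2'.le (by positivity)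
  linarith

lemma par {ε C : ℝ} (hε : 0 < ε) (hC : 0 < C) : ∃ N₀ : ℕ, ∀ N : ℕ, N₀ ≤ N → ∀ v : ℝ, ε ≤ v → v ≤ 2 →
    ∃ k r : ℕ, 2 ≤ N ∧ 1 ≤ k ∧ 1 ≤ r ∧ N ≤ 2 ^ r ∧ (k : ℝ) ≤ Real.log ((2 ^ r : ℕ) : ℝ) ∧
      2 * k * Real.log ((r : ℝ) + 1) + (k : ℝ) ^ 2 * Real.log (1 + Real.log ((2 ^ r : ℕ) : ℝ) / k) +
        C * (k : ℝ) ^ 2 + C * k * Real.log (1 + Real.log ((2 ^ r : ℕ) : ℝ) / k) -
        2 * k * (v * Real.sqrt (Real.log N * Real.log (Real.log N))) ≤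
        (ε - 2 * v ^ 2) * Real.log N := by
  obtain ⟨X, hX⟩ := par_real hε hC
  obtain ⟨N₀, hN₀⟩ := exists_nat_ge (Real.exp X)
  refine ⟨max N₀ 2, fun N hN v hv1 hv2 => ?_⟩
  have hN2 : 2 ≤ N := (le_max_right _ _).trans hN
  have hNr : Real.exp X ≤ N := hN₀.trans (by exact_mod_cast (le_max_left _ _).trans hN)
  have hNpos : (0 : ℝ) < N := by positivity
  have hXL : X ≤ Real.log N := by
    rw [Real.le_log_iff_exp_le hNpos]
    exact hNr
  obtain ⟨r, hr1, hNr2, hLL', hL'2, hr6⟩ := exists_r hN2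
  obtain ⟨hL1, hl4, hw5, hμ0, hμl, h4, h5⟩ := hX _ hXL
  suffices hh : ∃ k : ℕ, 1 ≤ k ∧ (k : ℝ) ≤ Real.log ((2 ^ r : ℕ) : ℝ) ∧
      2 * k * Real.log ((r : ℝ) + 1) + (k : ℝ) ^ 2 * Real.log (1 + Real.log ((2 ^ r : ℕ) : ℝ) / k) +
        C * (k : ℝ) ^ 2 + C * k * Real.log (1 + Real.log ((2 ^ r : ℕ) : ℝ) / k) -
        2 * k * (v * Real.sqrt (Real.log N * Real.log (Real.log N))) ≤
        (ε - 2 * v ^ 2) * Real.log N by
    obtain ⟨k, h1, h2, h3⟩ := hh
    exact ⟨k, r, hN2, h1, hr1, hNr2, h2, h3⟩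
  generalize Real.log ((2 ^ r : ℕ) : ℝ) = L' at *
  generalize Real.log (N : ℝ) = L at *
  have hL0 : 0 < L := by linarith
  have hl0 : 0 < Real.log L := by linarith
  have hLl : 0 < L / Real.log L := by positivity
  have hw0 : 0 < Real.sqrt (L / Real.log L) := Real.sqrt_pos.2 hLl
  have hw2 : Real.sqrt (L / Real.log L) ^ 2 = L / Real.log L := Real.sq_sqrt hLl.le
  have hwL : Real.sqrt (L / Real.log L) ^ 2 * Real.log L = L := by rw [hw2]; field_simp
  have hlw : Real.log (Real.sqrt (L / Real.log L)) = (Real.log L - Real.log (Real.log L)) / 2 := by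
    rw [Real.log_sqrt hLl.le, Real.log_div hL0.ne' hl0.ne']
  have h6 : Real.sqrt (L * Real.log L) = Real.sqrt (L / Real.log L) * Real.log L := by
    conv_lhs => rw [← hwL]
    rw [show Real.sqrt (L / Real.log L) ^ 2 * Real.log L * Real.log
      (Real.sqrt (L / Real.log L) ^ 2 * Real.log L) =
      Real.sqrt (L / Real.log L) ^ 2 * Real.log L * Real.log L by rw [hwL],
      show Real.sqrt (L / Real.log L) ^ 2 * Real.log L * Real.log L =
      (Real.sqrt (L / Real.log L) * Real.log L) ^ 2 by ring, Real.sqrt_sq (by positivity)]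
  have hRl : Real.log ((r : ℝ) + 1) ≤ 2 * Real.log L := by
    have hrr : (r : ℝ) + 1 ≤ L ^ 2 := by nlinarith
    have h6 : Real.log ((r : ℝ) + 1) ≤ Real.log (L ^ 2) := Real.log_le_log (by positivity) hrr
    rw [Real.log_pow] at h6
    exact_mod_cast h6
  rw [h6]
  generalize Real.sqrt (L / Real.log L) = w at *
  generalize hl : Real.log L = l at *
  generalize Real.log ((r : ℝ) + 1) = R at *
  clear h6 hw2 hLl hX hNr hXL hN₀
  have hv0 : 0 < v := lt_of_lt_of_le hε hv1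
  have hx0 : 0 < 2 * v * w := by positivity
  have hkx : 2 * v * w ≤ ⌈2 * v * w⌉₊ := Nat.le_ceil _
  have hkx1 : (⌈2 * v * w⌉₊ : ℝ) ≤ 2 * v * w + 1 := (Nat.ceil_lt_add_one hx0.le).le
  have hk1 : 1 ≤ ⌈2 * v * w⌉₊ := Nat.one_le_iff_ne_zero.2 (Nat.ceil_pos.2 hx0).ne'
  refine ⟨⌈2 * v * w⌉₊, hk1, ?_, ?_⟩
  · have hvw : v * w ≤ 2 * w := mul_le_mul_of_nonneg_right hv2 hw0.le
    have h7 : 5 * w ≤ w * w := mul_le_mul_of_nonneg_right hw5 hw0.le
    have h8 : w ^ 2 * 1 ≤ w ^ 2 * l := mul_le_mul_of_nonneg_left (by linarith) (by positivity)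
    nlinarith
  · have hk0 : (0 : ℝ) < (⌈2 * v * w⌉₊ : ℝ) := by exact_mod_cast hk1
    generalize (⌈2 * v * w⌉₊ : ℝ) = k at *
    have hLk : 0 ≤ L' / k := div_nonneg (by linarith) hk0.le
    have hΛ0 : 0 ≤ Real.log (1 + L' / k) := Real.log_nonneg (by linarith)
    have hΛ1 : Real.log (1 + L' / k) ≤ l / 2 + (Real.log l / 2 + Real.log (1 + 1 / ε)) := by
      have h6 : 1 + L' / k ≤ (1 + 1 / ε) * (w * l) := by
        have h7 : L' / k ≤ 2 * L / (2 * v * w) := div_le_div₀ (by positivity) (by linarith) hx0 hkx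
        have h8 : 2 * L / (2 * v * w) = w * l / v := by
          rw [← hwL]
          field_simp
        have h9 : w * l / v ≤ w * l / ε := div_le_div_of_nonneg_left (by positivity) hε hv1
        have h10 : 1 ≤ w * l := by nlinarith
        calc 1 + L' / k ≤ w * l + w * l / ε := by linarith
          _ = (1 + 1 / ε) * (w * l) := by ring
      have h7 : Real.log (1 + L' / k) ≤ Real.log ((1 + 1 / ε) * (w * l)) :=
        Real.log_le_log (by linarith) h6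
      have h8 : Real.log ((1 + 1 / ε) * (w * l)) = Real.log (1 + 1 / ε) + (Real.log w + Real.log l) := by
        rw [Real.log_mul (by positivity) (by positivity), Real.log_mul hw0.ne' hl0.ne']
      rw [h8, hlw] at h7
      linarith
    have hmain := real_bound (R := R) (Λ := Real.log (1 + L' / k)) hε hv1 hv2 hC (by linarith) hl0 hkx
      hkx1 hΛ0 hΛ1 hRl hμ0 hμl h4 h5
    rw [hwL] at hmain
    exact hmain

/-- U4 -/
theorem u4 (h2 : S_U2) (h3 : S_U3) : S_U4 := by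
  obtain ⟨C, hC, hU2⟩ := h2
  intro ε hε
  obtain ⟨N₀, hN₀⟩ := par hε hC
  refine ⟨N₀, fun N hN v hv1 hv2 a ha => ?_⟩
  obtain ⟨k, r, hN2, hk1, hr1, hNr2, hkL, hmain⟩ := hN₀ N hN v hv1 hv2
  have hNpos : (0 : ℝ) < N := by positivity
  -- Markov
  set F : Om → ℝ := fun ω => ((range (2 ^ r + 1)).sup' ⟨0, by simp⟩ fun N => ‖S ω a N‖) ^ (2 * k)
    with hF
  have hFc : Continuous F := by
    refine Continuous.pow ?_ _
    exact Continuous.finset_sup'_apply _ fun N _ => (S_cont a N).norm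
  have hbig : 0 < big v N := Real.exp_pos _
  have hsupnn : ∀ ω : Om, 0 ≤ (range (2 ^ r + 1)).sup' ⟨0, by simp⟩ fun N => ‖S ω a N‖ := fun ω =>
    (norm_nonneg _).trans (Finset.le_sup' (fun N => ‖S ω a N‖) (Finset.mem_range.2 (Nat.succ_pos _)))
  have hsub : {ω : Om | ∃ n ≤ N, big v N ≤ ‖S ω a n‖} ⊆ {ω | (big v N) ^ (2 * k) ≤ F ω} := by
    rintro ω ⟨n, hn, hb⟩
    refine pow_le_pow_left₀ hbig.le (hb.trans ?_) _
    exact Finset.le_sup' (fun N => ‖S ω a N‖) (Finset.mem_range.2 (by omega))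
  have hmk := mul_meas_ge_le_integral_of_nonneg (μ := PT) (f := F)
    (Filter.Eventually.of_forall fun ω => pow_nonneg (hsupnn ω) _) (int_cont hFc) ((big v N) ^ (2 * k))
  have hint : ∫ ω, F ω ∂PT ≤ Real.exp (2 * k * Real.log ((r : ℝ) + 1) +
      (k : ℝ) ^ 2 * Real.log (1 + Real.log ((2 ^ r : ℕ) : ℝ) / k) +
        C * (k : ℝ) ^ 2 + C * k * Real.log (1 + Real.log ((2 ^ r : ℕ) : ℝ) / k)) := by
    have h6 := h3 a ha k r hk1
    have h7 := hU2 k (2 ^ r) hk1 (by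
      calc 2 = 2 ^ 1 := rfl
        _ ≤ 2 ^ r := Nat.pow_le_pow_right (by norm_num) hr1) hkL
    refine h6.trans ?_
    have h8 : ((r : ℝ) + 1) ^ (2 * k) = Real.exp (2 * k * Real.log ((r : ℝ) + 1)) := by
      rw [mul_comm (2 * (k : ℝ)), Real.exp_mul, Real.exp_log (by positivity), ← Real.rpow_natCast]
      congr 1
      push_cast
      rfl
    rw [h8]
    refine (mul_le_mul_of_nonneg_left h7 (Real.exp_pos _).le).trans (le_of_eq ?_)
    rw [← Real.exp_add]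
    congr 1
    ring
  have hb2 : (big v N) ^ (2 * k) =
      Real.exp (2 * k * (v * Real.sqrt (Real.log N * Real.log (Real.log N)))) := by
    rw [big, ← Real.exp_nat_mul]
    congr 1
    push_cast
    ring
  have hP : PT.real {ω : Om | ∃ n ≤ N, big v N ≤ ‖S ω a n‖} ≤ PT.real {ω | (big v N) ^ (2 * k) ≤ F ω} :=
    measureReal_mono hsub
  refine hP.trans ?_
  rw [Real.rpow_def_of_pos hNpos, mul_comm (Real.log N)]
  refine le_trans ?_ (Real.exp_le_exp.2 hmain)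
  rw [Real.exp_sub, le_div_iff₀ (Real.exp_pos _), ← hb2, mul_comm]
  exact hmk.trans hint

end Pool.Agent.Q299.FG
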